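import Pool.Agent.Y560.TQ.Defs

/-!
Project TQ: existence of the median tree generated by a set with a treelike quaternary relation.
-/

set_option autoImplicit false

namespace Pool.Agent.Y319.TQ

open Pool.Agent.Y560.TQ
open Pool.Agent.Y560.TH (XC IsoC MT)

theorem mtr_right {M : Type} {I : M → M → M → Prop} (hI : Mtr I) (a c : M) : I a c c :=
  hI.symm _ _ _ (hI.left c a)

/-- The elements generated by a set form a median tree. -/
theorem mtr_sub {M : Type} {I : M → M → M → Prop} (hI : Mtr I) (G : GEO I) (P : M → Prop) :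
    Mtr (fun u v w : {u : M // ∃ a b c, P a ∧ P b ∧ P c ∧ md I a b c u} => I u.1 v.1 w.1) := by
  refine ⟨fun a c => hI.left _ _, fun a b c h => hI.symm _ _ _ h,
    fun a b c h1 h2 => Subtype.ext (hI.anti _ _ _ h1 h2), fun a b c d h => hI.tree _ _ _ _ h, ?_⟩
  intro a b c
  obtain ⟨m, h1, h2, h3⟩ := hI.med a.1 b.1 c.1
  exact ⟨⟨m, G.gen P _ _ _ _ a.2 b.2 c.2 ⟨h1, h2, h3⟩⟩, h1, h2, h3⟩

/-- Existence of the generated tree. -/
theorem t_QEX (hG : S_GEO) (h : S_QDF) : S_QEX := by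
  classical
  intro Γ _ x hx
  obtain ⟨M, I, e, hI, he, hxe⟩ := hx.emb
  have G := hG M I hI
  obtain ⟨P, hP⟩ : ∃ P : M → Prop, P = fun u => ∃ a, e a = u := ⟨_, rfl⟩
  have hPe : ∀ a, P (e a) := fun a => by rw [hP]; exact ⟨a, rfl⟩
  have hPx : ∀ u, P u → ∃ a, e a = u := fun u hu => by rw [hP] at hu; exact hu
  clear hP
  obtain ⟨M0, hM0⟩ : ∃ M0 : Type, M0 = {u : M // ∃ a b c, P a ∧ P b ∧ P c ∧ md I a b c u} :=
    ⟨_, rfl⟩
  obtain ⟨I0, vv, vinj, vI, vP, vI0⟩ : ∃ (I0 : M0 → M0 → M0 → Prop) (vv : M0 → M),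
      Function.Injective vv ∧ (∀ u v w, I0 u v w ↔ I (vv u) (vv v) (vv w)) ∧
      (∀ u, (∃ a b c, P a ∧ P b ∧ P c ∧ md I a b c u) ↔ ∃ m, vv m = u) ∧ Mtr I0 := by
    subst hM0
    refine ⟨fun u v w => I u.1 v.1 w.1, fun u => u.1, Subtype.val_injective,
      fun _ _ _ => Iff.rfl, fun u => ⟨fun h => ⟨⟨u, h⟩, rfl⟩, ?_⟩, mtr_sub hI G P⟩
    rintro ⟨m, rfl⟩
    exact m.2
  clear hM0
  have G0 := hG M0 I0 vI0
  -- medians of points
  have hmed : ∀ a b c : ℕ, ∃ u : M0, md I (e a) (e b) (e c) (vv u) := by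
    intro a b c
    obtain ⟨m, h1, h2, h3⟩ := hI.med (e a) (e b) (e c)
    obtain ⟨u, hu⟩ := (vP m).1 ⟨e a, e b, e c, hPe a, hPe b, hPe c, h1, h2, h3⟩
    exact ⟨u, by rw [hu]; exact ⟨h1, h2, h3⟩⟩
  choose mm hmm using hmed
  have msurj : ∀ u : M0, ∃ a b c, mm a b c = u := by
    intro u
    obtain ⟨a', b', c', ha, hb, hc, hu⟩ := (vP (vv u)).2 ⟨u, rfl⟩
    obtain ⟨a, rfl⟩ := hPx a' ha
    obtain ⟨b, rfl⟩ := hPx b' hb
    obtain ⟨c, rfl⟩ := hPx c' hc
    exact ⟨a, b, c, vinj (G.uniq _ _ _ _ _ (hmm a b c) hu)⟩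
  have hmt : ∀ a b c d, x.1 a b c d = false ↔ meets I (e a) (e b) (e c) (e d) := by
    intro a b c d
    rw [← Bool.not_eq_true, hxe, not_not]
  obtain ⟨B, hBdef⟩ : ∃ B : ℕ → ℕ → ℕ → ℕ → ℕ → Prop, ∀ a b c p q, B a b c p q ↔
      (x.1 p q a b = false ∧ x.1 p q b c = false ∧ x.1 p q a c = false) :=
    ⟨_, fun _ _ _ _ _ => Iff.rfl⟩
  have hB : ∀ a b c p q, I (e p) (vv (mm a b c)) (e q) ↔ B a b c p q := by
    intro a b c p q
    rw [G.helly _ _ _ _ _ _ (hmm a b c), hBdef, hmt, hmt, hmt]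
  have hBγ : ∀ γ a b c p q, B (x.2.1 γ a) (x.2.1 γ b) (x.2.1 γ c) (x.2.1 γ p) (x.2.1 γ q) ↔
      B a b c p q := by
    intro γ a b c p q
    rw [hBdef, hBdef, hx.auto, hx.auto, hx.auto]
  have hγ : ∀ γ p, x.2.1 γ (x.2.1 γ⁻¹ p) = p := by
    intro γ p
    rw [← hx.mul, mul_inv_cancel, hx.one]
  have heq : ∀ a b c a' b' c', mm a b c = mm a' b' c' ↔
      (B a' b' c' a b ∧ B a' b' c' b c ∧ B a' b' c' a c) := by
    intro a b c a' b' c'
    rw [← hB, ← hB, ← hB]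
    constructor
    · intro hh
      rw [← hh]
      exact hmm a b c
    · intro hh
      exact vinj (G.uniq _ _ _ _ _ (hmm a b c) hh)
  -- the points
  obtain ⟨e0, he0⟩ : ∃ e0 : ℕ → M0, ∀ a, e0 a = mm a a a := ⟨_, fun _ => rfl⟩
  have he0v : ∀ a, vv (e0 a) = e a := by
    intro a
    rw [he0]
    exact G.uniq _ _ _ _ _ (hmm a a a) ⟨hI.left _ _, hI.left _ _, hI.left _ _⟩
  have he0i : Function.Injective e0 := by
    intro a b hab
    apply he
    rw [← he0v a, ← he0v b, hab]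
  have hbt : ∀ u v w : M0, I0 u v w ↔ ∀ p q : ℕ, I (e p) (vv u) (e q) → I (e p) (vv w) (e q) →
      I (e p) (vv v) (e q) := by
    intro u v w
    rw [G0.betw (fun u => ∃ a, e0 a = u) ?_ u v w]
    · constructor
      · intro hh p q h1 h2
        have h3 := hh (e0 p) (e0 q) ⟨p, rfl⟩ ⟨q, rfl⟩
        rw [vI, vI, vI, he0v, he0v] at h3
        exact h3 h1 h2
      · rintro hh _ _ ⟨p, rfl⟩ ⟨q, rfl⟩
        rw [vI, vI, vI, he0v, he0v]
        exact hh p q
    · intro u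
      obtain ⟨a, b, c, rfl⟩ := msurj u
      refine ⟨e0 a, e0 b, e0 c, ⟨a, rfl⟩, ⟨b, rfl⟩, ⟨c, rfl⟩, ?_⟩
      unfold md
      rw [vI, vI, vI, he0v, he0v, he0v]
      exact hmm a b c
  -- the action
  choose ta tb tc ht using msurj
  obtain ⟨act, hactd⟩ : ∃ act : Γ → M0 → M0, ∀ γ u, act γ u =
      mm (x.2.1 γ (ta u)) (x.2.1 γ (tb u)) (x.2.1 γ (tc u)) := ⟨_, fun _ _ => rfl⟩
  have hact : ∀ γ a b c, act γ (mm a b c) = mm (x.2.1 γ a) (x.2.1 γ b) (x.2.1 γ c) := by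
    intro γ a b c
    rw [hactd, heq, hBγ, hBγ, hBγ, ← heq]
    exact ht _
  have hactI : ∀ γ u v w, I0 u v w → I0 (act γ u) (act γ v) (act γ w) := by
    intro γ u v w huvw
    rw [hbt] at huvw ⊢
    rw [← ht u, ← ht v, ← ht w] at huvw ⊢
    rw [hact, hact, hact]
    intro p q
    have h1 := huvw (x.2.1 γ⁻¹ p) (x.2.1 γ⁻¹ q)
    have h2 : ∀ a b c, B a b c (x.2.1 γ⁻¹ p) (x.2.1 γ⁻¹ q) ↔
        B (x.2.1 γ a) (x.2.1 γ b) (x.2.1 γ c) p q := by
      intro a b c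
      rw [← hBγ γ a b c, hγ, hγ]
    rw [hB, hB, hB, h2, h2, h2] at h1
    rw [hB, hB, hB]
    exact h1
  have hact1 : ∀ u, act 1 u = u := by
    intro u
    rw [hactd, hx.one, hx.one, hx.one, ht]
  have hactm : ∀ γ δ u, act (γ * δ) u = act γ (act δ u) := by
    intro γ δ u
    rw [hactd δ, hact, hactd, hx.mul, hx.mul, hx.mul]
  have hacte : ∀ γ a, act γ (e0 a) = e0 (x.2.1 γ a) := by
    intro γ a
    rw [he0, he0, hact]
  -- meeting paths
  have hmeet : ∀ a b c d, meets I0 (e0 a) (e0 b) (e0 c) (e0 d) ↔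
      meets I (e a) (e b) (e c) (e d) := by
    intro a b c d
    constructor
    · rintro ⟨m, h1, h2⟩
      rw [vI, he0v, he0v] at h1 h2
      exact ⟨vv m, h1, h2⟩
    · rintro ⟨m, h1, h2⟩
      refine ⟨mm a b c, ?_, ?_⟩
      · rw [vI, he0v, he0v]
        exact (hmm a b c).1
      · rw [vI, he0v, he0v, G.helly _ _ _ _ _ _ (hmm a b c)]
        exact ⟨⟨m, h2, h1⟩, ⟨e c, hI.left _ _, mtr_right hI _ _⟩,
          ⟨e c, hI.left _ _, mtr_right hI _ _⟩⟩
  -- countability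
  have hcount : Countable M0 := by
    have : Function.Surjective (fun t : ℕ × ℕ × ℕ => mm t.1 t.2.1 t.2.2) := fun u =>
      ⟨(ta u, tb u, tc u), ht u⟩
    exact this.countable
  have hinf : Infinite M0 := Infinite.of_injective e0 he0i
  obtain ⟨f⟩ : Nonempty (M0 ≃ ℕ) := nonempty_equiv_of_countable
  obtain ⟨y, hy1, hy2, hy3, hy4⟩ : ∃ y : XC Γ,
      (∀ i j k, y.1 i j k = true ↔ I0 (f.symm i) (f.symm j) (f.symm k)) ∧
      (∀ γ k, y.2.1 γ k = f (act γ (f.symm k))) ∧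
      (∀ k, y.2.2 0 k = true ↔ ∃ a, f.symm k = e0 a) ∧
      (∀ i k, y.2.2 (i + 1) k = true ↔ ∃ a, f.symm k = e0 a ∧ x.2.2 i a = true) :=
    ⟨(fun i j k => decide (I0 (f.symm i) (f.symm j) (f.symm k)),
      fun γ k => f (act γ (f.symm k)),
      fun i k => Nat.casesOn i (decide (∃ a, f.symm k = e0 a))
        fun i => decide (∃ a, f.symm k = e0 a ∧ x.2.2 i a = true)),
      fun i j k => decide_eq_true_iff, fun γ k => rfl, fun k => decide_eq_true_iff,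
      fun i k => decide_eq_true_iff⟩
  have hyI : ∀ u v w, It y (f u) (f v) (f w) ↔ I0 u v w := by
    intro u v w
    unfold It
    rw [hy1, f.symm_apply_apply, f.symm_apply_apply, f.symm_apply_apply]
  have hyP : ∀ k, Pq y k ↔ ∃ a, k = f (e0 a) := by
    intro k
    unfold Pq
    rw [hy3]
    refine exists_congr fun a => ?_
    rw [Equiv.symm_apply_eq]
  have hGQ : GQ y := by
    refine ⟨⟨?_, ?_, ?_, ?_, ?_, ?_, ?_, ?_⟩, ?_, ?_, ?_, ?_⟩
    · intro a c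
      rw [hy1]; exact vI0.left _ _
    · intro a b c hh
      rw [hy1] at hh ⊢; exact vI0.symm _ _ _ hh
    · intro a b c h1 h2
      rw [hy1] at h1 h2
      exact f.symm.injective (vI0.anti _ _ _ h1 h2)
    · intro a b c d hh
      rw [hy1] at hh
      rw [hy1, hy1]
      exact vI0.tree _ _ _ _ hh
    · intro a b c
      obtain ⟨m, h1, h2, h3⟩ := vI0.med (f.symm a) (f.symm b) (f.symm c)
      refine ⟨f m, ?_, ?_, ?_⟩
      · rw [hy1, f.symm_apply_apply]; exact h1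
      · rw [hy1, f.symm_apply_apply]; exact h2
      · rw [hy1, f.symm_apply_apply]; exact h3
    · intro m
      rw [hy2, hact1, f.apply_symm_apply]
    · intro γ δ m
      rw [hy2, hy2, hy2, f.symm_apply_apply, hactm]
    · intro γ a b c hh
      rw [hy1] at hh ⊢
      rw [hy2, hy2, hy2, f.symm_apply_apply, f.symm_apply_apply, f.symm_apply_apply]
      exact hactI γ _ _ _ hh
    · have h1 : Set.range (fun a => f (e0 a)) ⊆ {k | Pq y k} := by
        rintro _ ⟨a, rfl⟩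
        exact (hyP _).2 ⟨a, rfl⟩
      exact (Set.infinite_range_of_injective (f.injective.comp he0i)).mono h1
    · intro γ k hk
      obtain ⟨a, rfl⟩ := (hyP k).1 hk
      rw [hy2, f.symm_apply_apply, hacte]
      exact (hyP _).2 ⟨_, rfl⟩
    · intro k
      obtain ⟨u, rfl⟩ := f.surjective k
      refine ⟨f (e0 (ta u)), f (e0 (tb u)), f (e0 (tc u)), (hyP _).2 ⟨_, rfl⟩,
        (hyP _).2 ⟨_, rfl⟩, (hyP _).2 ⟨_, rfl⟩, ?_⟩
      unfold md
      rw [hyI, hyI, hyI, vI, vI, vI, he0v, he0v, he0v]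
      have h1 := hmm (ta u) (tb u) (tc u)
      rw [ht u] at h1
      exact h1
    · intro i k hk
      rw [hy4] at hk
      obtain ⟨a, h1, -⟩ := hk
      exact (hy3 k).2 ⟨a, h1⟩
  have D := h Γ y hGQ
  refine ⟨y, hGQ, ?_⟩
  have hs : ∀ m, ∃ a, enq y m = f (e0 a) := fun m => (hyP _).1 (D.mem m)
  choose s hs using hs
  have fe : Function.Injective (fun a => f (e0 a)) := f.injective.comp he0i
  have hsi : Function.Injective s := by
    intro m n hmn
    apply D.inj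
    rw [hs, hs, hmn]
  have hss : Function.Surjective s := by
    intro a
    obtain ⟨m, hm⟩ := D.sur (f (e0 a)) ((hyP _).2 ⟨a, rfl⟩)
    refine ⟨m, fe ?_⟩
    show f (e0 (s m)) = f (e0 a)
    rw [← hs, hm]
  refine ⟨Equiv.ofBijective s ⟨hsi, hss⟩, ?_, ?_, ?_⟩
  · intro a b c d
    show x.1 (s a) (s b) (s c) (s d) = decide (¬ meets (It y) (enq y a) (enq y b) (enq y c)
      (enq y d))
    rw [hs, hs, hs, hs]
    have h1 : meets (It y) (f (e0 (s a))) (f (e0 (s b))) (f (e0 (s c))) (f (e0 (s d))) ↔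
        meets I0 (e0 (s a)) (e0 (s b)) (e0 (s c)) (e0 (s d)) := by
      constructor
      · rintro ⟨m, h1, h2⟩
        obtain ⟨u, rfl⟩ := f.surjective m
        rw [hyI] at h1 h2
        exact ⟨u, h1, h2⟩
      · rintro ⟨u, h1, h2⟩
        exact ⟨f u, (hyI _ _ _).2 h1, (hyI _ _ _).2 h2⟩
    rw [Bool.eq_iff_iff, decide_eq_true_iff, h1, hmeet, hxe]
  · intro γ m
    show x.2.1 γ (s m) = s ((DQ y).2.1 γ m)
    apply fe
    show f (e0 (x.2.1 γ (s m))) = f (e0 (s ((DQ y).2.1 γ m)))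
    rw [← hs, D.act, hs, hy2, f.symm_apply_apply, hacte]
  · intro i m
    show x.2.2 i (s m) = y.2.2 (i + 1) (enq y m)
    rw [Bool.eq_iff_iff, hy4, hs, f.symm_apply_apply]
    constructor
    · intro h1
      exact ⟨s m, rfl, h1⟩
    · rintro ⟨a, h1, h2⟩
      rw [he0i h1]
      exact h2

end Pool.Agent.Y319.TQ
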